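import Mathlib
import Pool.Agent.Work.MP_1500ab_co.Defs
import Pool.Agent.Work.MP_1500ab_co.G7

/-!
# Flat prismoids all of whose band unfoldings overlap

If the top is any convex polygon with three pairwise non-adjacent acute angles, and the base is any
polygon with parallel edges around it, then in every band unfolding of a sufficiently flat prismoid
with this top and base the top face overlaps a lateral face.  Such polygons exist for every number
`n ≥ 6` of vertices.
-/

namespace Pool.Agent.Results.MP_1500ab_co.FlatPrismoids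

open Pool.Agent.Work.MP_1500ab_co

/-- The interior angle of the polygon `a` at the vertex `m` is acute: the edge vectors from `a m`
to its two neighbours have a positive scalar product. -/
def AcuteAt {n : ℕ} (a : ZMod n → ℂ) (m : ZMod n) : Prop :=
  0 < (a (m - 1) - a m).re * (a (m + 1) - a m).re + (a (m - 1) - a m).im * (a (m + 1) - a m).im

/-- There are three acute angles, at pairwise different and pairwise non-adjacent vertices. -/
def ThreeAcute {n : ℕ} (a : ZMod n → ℂ) : Prop :=
  ∃ p q r : ZMod n, (AcuteAt a p ∧ AcuteAt a q ∧ AcuteAt a r) ∧ (p ≠ q ∧ q ≠ r ∧ r ≠ p) ∧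
    (q ≠ p + 1 ∧ p ≠ q + 1) ∧ (r ≠ q + 1 ∧ q ≠ r + 1) ∧ (p ≠ r + 1 ∧ r ≠ p + 1)

/-- All band unfoldings of `P` exist, and all of them overlap: the images of the top face and of
some lateral face have intersecting interiors. -/
def AllOverlap {n : ℕ} (P : Prismoid n) : Prop :=
  ∀ i j k : ZMod n,
    (∃ (T S : Space → ℂ) (F : ZMod n → Space → ℂ), IsBandUnfolding P i j k T S F) ∧
    ∀ (T S : Space → ℂ) (F : ZMod n → Space → ℂ), IsBandUnfolding P i j k T S F →
      ∃ m : ZMod n, (interior (T '' P.topFace) ∩ interior (F m '' P.lateral m)).Nonempty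

theorem result :
    (∀ (n : ℕ) (a b : ZMod n → ℂ), 3 ≤ n → IsConvexPolygon a → IsConvexPolygon b →
      (∀ i, ∃ c : ℝ, 0 < c ∧ b (i + 1) - b i = (c : ℂ) * (a (i + 1) - a i)) →
      (∀ i k, 0 < side (b i) (b (i + 1)) (a k)) → ThreeAcute a →
      ∃ h₀ : ℝ, 0 < h₀ ∧
        ∀ P : Prismoid n, P.a = a → P.b = b → P.h < h₀ → AllOverlap P) ∧
    (∀ n : ℕ, 6 ≤ n → ∃ P : Prismoid n, AllOverlap P) := by
  constructor
  · intro n a b hn ha hb hpar hnest h3
    have hg : Gen.Good a b := ⟨hn, ha, hb, hpar, hnest⟩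
    obtain ⟨p, q, r, ⟨h1, h2, h3⟩, ⟨h4, h5, h6⟩, ⟨h7, h8⟩, ⟨h9, h10⟩, ⟨h11, h12⟩⟩ := h3
    obtain ⟨h0, hh0, hall⟩ := Gen.flat_overlap hg
      ⟨p, q, r, h1, h2, h3, h4, h5, h6, h7, h8, h9, h10, h11, h12⟩
    refine ⟨h0, hh0, fun P hPa hPb hPh i j k => ⟨?_, fun T S F hU => ?_⟩⟩
    · have hP : Gen.Nest P := by
        subst hPa hPb
        exact hnest
      exact Gen.exists_unf hP i j k
    · exact hall P hPa hPb hPh i j k T S F hU
  · intro n hn
    obtain ⟨P, hP, hall⟩ := Gen.exists_prismoid hn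
    exact ⟨P, fun i j k => ⟨Gen.exists_unf hP i j k, fun T S F hU => hall i j k T S F hU⟩⟩

end Pool.Agent.Results.MP_1500ab_co.FlatPrismoids
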